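import Pool.Agent.KS6_38.BZ.Eval
import Pool.Agent.KS6_38.BZ.Card

/-!
The lattice of ideals of the semiring of sections is not representable.
-/

namespace Pool.Agent.KS6_38.BZ

open Pool.Agent.Helper455.Bez

universe u

open Classical

universe v

noncomputable section

section Elems

variable {I : Type u}

lemma rs_eq_some_iff {F : Finset I} {i : I} (hi : i ∈ F) (a : Option I) :
    rs F a = some i ↔ a = some i := by
  cases a with
  | none => simp [rs_none]
  | some j =>
    by_cases hj : j ∈ F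
    · rw [rs_mem hj]
    · rw [rs_not_mem hj]
      constructor
      · intro h; exact absurd h (by simp)
      · intro h; rw [Option.some.injEq] at h; exact absurd (h ▸ hi) hj

lemma m_mem_Vp {k l : ℤ} (h : 0 < k ∨ (k = 0 ∧ 0 ≤ l)) : m k l ∈ Vp := Or.inr ⟨k, l, rfl, h⟩

lemma exT1 (i : I) : ∃ s : Sec I, s.1.1 (some i) none none none = m 1 1 := by
  refine ⟨mkS {i} (fun a _ _ _ => if a = some i then m 1 1 else 0) ?_ ?_, ?_⟩
  · intro a b c d
    show (if _ then _ else (0 : V)) ∈ _
    split_ifs with h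
    · subst h
      unfold X
      split_ifs with h1 h2 h3
      · exact m_mem_Vp (by omega)
      · exact Or.inr ⟨1, rfl, by omega⟩
      · exact absurd rfl h2
      · exact absurd rfl h2
    · exact zero_mem _
  · intro a b c d
    show (if _ then _ else (0 : V)) = if _ then _ else (0 : V)
    simp only [rs_eq_some_iff (Finset.mem_singleton_self i)]
  · show (if _ then _ else (0 : V)) = _
    rw [if_pos rfl]

lemma exT2 (i : I) : ∃ s : Sec I, s.1.1 none (some i) none none = m 1 1 := by
  refine ⟨mkS {i} (fun _ a _ _ => if a = some i then m 1 1 else 0) ?_ ?_, ?_⟩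
  · intro a b c d
    show (if _ then _ else (0 : V)) ∈ _
    split_ifs with h
    · subst h
      unfold X
      rw [if_pos (by simp)]
      exact m_mem_Vp (by omega)
    · exact zero_mem _
  · intro a b c d
    show (if _ then _ else (0 : V)) = if _ then _ else (0 : V)
    simp only [rs_eq_some_iff (Finset.mem_singleton_self i)]
  · show (if _ then _ else (0 : V)) = _
    rw [if_pos rfl]

lemma exT3 (i : I) : ∃ s : Sec I, s.1.1 none none (some i) none = m 1 1 := by
  refine ⟨mkS {i} (fun _ _ a _ => if a = some i then m 1 1 else 0) ?_ ?_, ?_⟩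
  · intro a b c d
    show (if _ then _ else (0 : V)) ∈ _
    split_ifs with h
    · subst h
      unfold X
      rw [if_pos (by simp)]
      exact m_mem_Vp (by omega)
    · exact zero_mem _
  · intro a b c d
    show (if _ then _ else (0 : V)) = if _ then _ else (0 : V)
    simp only [rs_eq_some_iff (Finset.mem_singleton_self i)]
  · show (if _ then _ else (0 : V)) = _
    rw [if_pos rfl]

lemma exT4 (i : I) : ∃ s : Sec I, s.1.1 none none none (some i) = m 1 0 := by
  refine ⟨mkS {i} (fun _ _ _ a => if a = some i then m 1 0 else 0) ?_ ?_, ?_⟩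
  · intro a b c d
    show (if _ then _ else (0 : V)) ∈ _
    split_ifs with h
    · subst h
      unfold X
      split_ifs with h1 h2 h3
      · exact m_mem_Vp (by omega)
      · exact absurd (Or.inr (Or.inr ⟨h2, rfl⟩)) h1
      · exact Or.inr ⟨1, rfl, by omega⟩
      · exact absurd rfl h3
    · exact zero_mem _
  · intro a b c d
    show (if _ then _ else (0 : V)) = if _ then _ else (0 : V)
    simp only [rs_eq_some_iff (Finset.mem_singleton_self i)]
  · show (if _ then _ else (0 : V)) = _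
    rw [if_pos rfl]

end Elems

/-- In the chain of values, `m k l * v = m k' l'` determines `v`. -/
lemma solve {k l k' l' : ℤ} {v : V} (h : m k' l' = m k l * v) : v = m (k' - k) (l' - l) := by
  rcases cases v with rfl | ⟨a, b, rfl⟩
  · rw [mul_zero] at h; exact absurd h (m_ne_zero _ _)
  · rw [m_mul, m_inj] at h; rw [m_inj]; omega

lemma zero_of_mul {k l : ℤ} {v : V} (h : m k l * v = 0) : v = 0 := by
  rcases cases v with rfl | ⟨a, b, rfl⟩
  · rfl
  · rw [m_mul] at h; exact absurd h (m_ne_zero _ _)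

/-- `F` keeps the index `i` and forgets all indices in the list. -/
lemma x_eval {I : Type u} {F : Finset I} {s : Amb I} (h : Supp F s) {a b c d a' b' c' d' : Option I}
    (ha : rs F a = rs F a') (hb : rs F b = rs F b') (hc : rs F c = rs F c')
    (hd : rs F d = rs F d') : s.1 a b c d = s.1 a' b' c' d' := by
  rw [h.x a b c d, h.x a' b' c' d', ha, hb, hc, hd]

section Final

variable {Ind : Type u} (hInd : Cardinal.aleph 3 ≤ Cardinal.mk Ind)
variable {R : Type*} [CommRing R] {c : R → Sec Ind} (hc : Content c)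
include hInd hc

theorem no_content : False := by
  -- supports
  have hsup : ∀ y : R, ∃ F : Finset Ind, Supp F (c y).1 := fun y => (c y).2.2
  choose sup hsup using hsup
  have hsupK : ∀ (y : R) (K : Finset Ind), Supp (sup y ∪ K) (c y).1 := fun y K =>
    (hsup y).mono Finset.subset_union_left (c y).2.1
  -- elements of level one
  have h1 : ∀ i : Ind, ∃ y : R, (c y).1.1 (some i) none none none = m 1 1 := by
    intro i
    obtain ⟨s, hs⟩ := exT1 i
    obtain ⟨y, -, hy⟩ := pick hc s (some i) none none none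
    exact ⟨y, hy.trans hs⟩
  have h2 : ∀ i : Ind, ∃ y : R, (c y).1.1 none (some i) none none = m 1 1 := by
    intro i
    obtain ⟨s, hs⟩ := exT2 i
    obtain ⟨y, -, hy⟩ := pick hc s none (some i) none none
    exact ⟨y, hy.trans hs⟩
  have h3 : ∀ i : Ind, ∃ y : R, (c y).1.1 none none (some i) none = m 1 1 := by
    intro i
    obtain ⟨s, hs⟩ := exT3 i
    obtain ⟨y, -, hy⟩ := pick hc s none none (some i) none
    exact ⟨y, hy.trans hs⟩
  have h4 : ∀ i : Ind, ∃ y : R, (c y).1.1 none none none (some i) = m 1 0 := by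
    intro i
    obtain ⟨s, hs⟩ := exT4 i
    obtain ⟨y, -, hy⟩ := pick hc s none none none (some i)
    exact ⟨y, hy.trans hs⟩
  choose f1 hf1 using h1
  choose f2 hf2 using h2
  choose f3 hf3 using h3
  choose f4 hf4 using h4
  -- elements of level two
  have hdiv := fun (y1 y2 : R) (a b e d : Option Ind) => div hc y1 y2 a b e d
  choose! u v huv using hdiv
  let a12 : Ind → Ind → R := fun i j => u (f1 i) (f2 j) (some i) (some j) none none
  let g12 : Ind → Ind → R := fun i j => v (f1 i) (f2 j) (some i) (some j) none none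
  let a13 : Ind → Ind → R := fun i k => u (f1 i) (f3 k) (some i) none (some k) none
  let g13 : Ind → Ind → R := fun i k => v (f1 i) (f3 k) (some i) none (some k) none
  let a14 : Ind → Ind → R := fun i l => u (f1 i) (f4 l) (some i) none none (some l)
  let g14 : Ind → Ind → R := fun i l => v (f1 i) (f4 l) (some i) none none (some l)
  let a23 : Ind → Ind → R := fun j k => u (f2 j) (f3 k) none (some j) (some k) none
  let g23 : Ind → Ind → R := fun j k => v (f2 j) (f3 k) none (some j) (some k) none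
  let a24 : Ind → Ind → R := fun j l => u (f2 j) (f4 l) none (some j) none (some l)
  let g24 : Ind → Ind → R := fun j l => v (f2 j) (f4 l) none (some j) none (some l)
  let a34 : Ind → Ind → R := fun k l => u (f3 k) (f4 l) none none (some k) (some l)
  let g34 : Ind → Ind → R := fun k l => v (f3 k) (f4 l) none none (some k) (some l)
  -- elements of level three
  let w123 : Ind → Ind → Ind → R := fun i j k =>
    a13 i k * g12 i j * g23 j k - a12 i j * a23 j k * g13 i k
  let w124 : Ind → Ind → Ind → R := fun i j l =>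
    a14 i l * g12 i j * g24 j l - a12 i j * a24 j l * g14 i l
  let w134 : Ind → Ind → Ind → R := fun i k l =>
    a14 i l * g13 i k * g34 k l - a13 i k * a34 k l * g14 i l
  let w234 : Ind → Ind → Ind → R := fun j k l =>
    a24 j l * g23 j k * g34 k l - a23 j k * a34 k l * g24 j l
  obtain ⟨i, j, k, l, hl, hk, hj, hi⟩ := free4 hInd
    (fun j k l => {j, k, l} ∪ (sup (f2 j) ∪ sup (f3 k) ∪ sup (f4 l) ∪ sup (a23 j k) ∪ sup (g23 j k)
      ∪ sup (a24 j l) ∪ sup (g24 j l) ∪ sup (a34 k l) ∪ sup (g34 k l) ∪ sup (w234 j k l)))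
    (fun i k l => {i, k, l} ∪ (sup (f1 i) ∪ sup (f3 k) ∪ sup (f4 l) ∪ sup (a13 i k) ∪ sup (g13 i k)
      ∪ sup (a14 i l) ∪ sup (g14 i l) ∪ sup (a34 k l) ∪ sup (g34 k l) ∪ sup (w134 i k l)))
    (fun i j l => {i, j, l} ∪ (sup (f1 i) ∪ sup (f2 j) ∪ sup (f4 l) ∪ sup (a12 i j) ∪ sup (g12 i j)
      ∪ sup (a14 i l) ∪ sup (g14 i l) ∪ sup (a24 j l) ∪ sup (g24 j l) ∪ sup (w124 i j l)))
    (fun i j k => {i, j, k} ∪ (sup (f1 i) ∪ sup (f2 j) ∪ sup (f3 k) ∪ sup (a12 i j) ∪ sup (g12 i j)
      ∪ sup (a13 i k) ∪ sup (g13 i k) ∪ sup (a23 j k) ∪ sup (g23 j k) ∪ sup (w123 i j k)))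
  simp only [Finset.mem_union, Finset.mem_insert, Finset.mem_singleton, not_or] at hl hk hj hi
  obtain ⟨⟨hli, hlj, hlk⟩, ⟨⟨⟨⟨⟨⟨⟨⟨⟨lf1, lf2⟩, lf3⟩, la12⟩, lg12⟩, la13⟩, lg13⟩, la23⟩, lg23⟩, lw⟩⟩ := hl
  obtain ⟨⟨hki, hkj, hkl⟩, ⟨⟨⟨⟨⟨⟨⟨⟨⟨kf1, kf2⟩, kf4⟩, ka12⟩, kg12⟩, ka14⟩, kg14⟩, ka24⟩, kg24⟩, kw⟩⟩ := hk
  obtain ⟨⟨hji, hjk, hjl⟩, ⟨⟨⟨⟨⟨⟨⟨⟨⟨jf1, jf3⟩, jf4⟩, ja13⟩, jg13⟩, ja14⟩, jg14⟩, ja34⟩, jg34⟩, jw⟩⟩ := hj
  obtain ⟨⟨hij, hik, hil⟩, ⟨⟨⟨⟨⟨⟨⟨⟨⟨if2, if3⟩, if4⟩, ia23⟩, ig23⟩, ia24⟩, ig24⟩, ia34⟩, ig34⟩, iw⟩⟩ := hi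
  -- evaluation helpers
  have on : ∀ (y : R) (K : Finset Ind) (t : Ind), t ∈ K → rs (sup y ∪ K) (some t) = some t :=
    fun y K t ht => rs_mem (Finset.mem_union_right _ ht)
  have off : ∀ (y : R) (K : Finset Ind) (t : Ind), t ∉ sup y → t ∉ K →
      rs (sup y ∪ K) (some t) = rs (sup y ∪ K) none := fun y K t h1 h2 => by
    rw [rs_none]; exact rs_not_mem (by simp [h1, h2])
  -- level one at pairs
  have p12_1 : (c (f1 i)).1.1 (some i) (some j) none none = m 1 1 :=
    (x_eval (hsupK (f1 i) {i}) rfl (off _ _ _ jf1 (by simpa using hji)) rfl rfl).trans (hf1 i)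
  have p13_1 : (c (f1 i)).1.1 (some i) none (some k) none = m 1 1 :=
    (x_eval (hsupK (f1 i) {i}) rfl rfl (off _ _ _ kf1 (by simpa using hki)) rfl).trans (hf1 i)
  have p14_1 : (c (f1 i)).1.1 (some i) none none (some l) = m 1 1 :=
    (x_eval (hsupK (f1 i) {i}) rfl rfl rfl (off _ _ _ lf1 (by simpa using hli))).trans (hf1 i)
  have p12_2 : (c (f2 j)).1.1 (some i) (some j) none none = m 1 1 :=
    (x_eval (hsupK (f2 j) {j}) (off _ _ _ if2 (by simpa using hij)) rfl rfl rfl).trans (hf2 j)
  have p23_2 : (c (f2 j)).1.1 none (some j) (some k) none = m 1 1 :=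
    (x_eval (hsupK (f2 j) {j}) rfl rfl (off _ _ _ kf2 (by simpa using hkj)) rfl).trans (hf2 j)
  have p24_2 : (c (f2 j)).1.1 none (some j) none (some l) = m 1 1 :=
    (x_eval (hsupK (f2 j) {j}) rfl rfl rfl (off _ _ _ lf2 (by simpa using hlj))).trans (hf2 j)
  have p13_3 : (c (f3 k)).1.1 (some i) none (some k) none = m 1 1 :=
    (x_eval (hsupK (f3 k) {k}) (off _ _ _ if3 (by simpa using hik)) rfl rfl rfl).trans (hf3 k)
  have p23_3 : (c (f3 k)).1.1 none (some j) (some k) none = m 1 1 :=
    (x_eval (hsupK (f3 k) {k}) rfl (off _ _ _ jf3 (by simpa using hjk)) rfl rfl).trans (hf3 k)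
  have p34_3 : (c (f3 k)).1.1 none none (some k) (some l) = m 1 1 :=
    (x_eval (hsupK (f3 k) {k}) rfl rfl rfl (off _ _ _ lf3 (by simpa using hlk))).trans (hf3 k)
  have p14_4 : (c (f4 l)).1.1 (some i) none none (some l) = m 1 0 :=
    (x_eval (hsupK (f4 l) {l}) (off _ _ _ if4 (by simpa using hil)) rfl rfl rfl).trans (hf4 l)
  have p24_4 : (c (f4 l)).1.1 none (some j) none (some l) = m 1 0 :=
    (x_eval (hsupK (f4 l) {l}) rfl (off _ _ _ jf4 (by simpa using hjl)) rfl rfl).trans (hf4 l)
  have p34_4 : (c (f4 l)).1.1 none none (some k) (some l) = m 1 0 :=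
    (x_eval (hsupK (f4 l) {l}) rfl rfl (off _ _ _ kf4 (by simpa using hkl)) rfl).trans (hf4 l)
  -- level one at triples
  have t123 : (c (f3 k)).1.1 (some i) (some j) (some k) none = m 1 1 :=
    (x_eval (hsupK (f3 k) {k}) (off _ _ _ if3 (by simpa using hik))
      (off _ _ _ jf3 (by simpa using hjk)) rfl rfl).trans (hf3 k)
  have t124 : (c (f4 l)).1.1 (some i) (some j) none (some l) = m 1 0 :=
    (x_eval (hsupK (f4 l) {l}) (off _ _ _ if4 (by simpa using hil))
      (off _ _ _ jf4 (by simpa using hjl)) rfl rfl).trans (hf4 l)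
  have t134 : (c (f4 l)).1.1 (some i) none (some k) (some l) = m 1 0 :=
    (x_eval (hsupK (f4 l) {l}) (off _ _ _ if4 (by simpa using hil)) rfl
      (off _ _ _ kf4 (by simpa using hkl)) rfl).trans (hf4 l)
  have t234 : (c (f4 l)).1.1 none (some j) (some k) (some l) = m 1 0 :=
    (x_eval (hsupK (f4 l) {l}) rfl (off _ _ _ jf4 (by simpa using hjl))
      (off _ _ _ kf4 (by simpa using hkl)) rfl).trans (hf4 l)
  have s11 : m 1 1 + m 1 1 = m 1 1 := add_self' _
  have s10 : m 1 1 + m 1 0 = m 1 0 := m_add_iff.2 (by omega)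
  -- relations of level two
  obtain ⟨x12, r12⟩ := huv (f1 i) (f2 j) (some i) (some j) none none
    (by rw [p12_1, p12_2, s11])
  obtain ⟨x13, r13⟩ := huv (f1 i) (f3 k) (some i) none (some k) none
    (by rw [p13_1, p13_3, s11])
  obtain ⟨x14, r14⟩ := huv (f1 i) (f4 l) (some i) none none (some l)
    (by rw [p14_1, p14_4, s10])
  obtain ⟨x23, r23⟩ := huv (f2 j) (f3 k) none (some j) (some k) none
    (by rw [p23_2, p23_3, s11])
  obtain ⟨x24, r24⟩ := huv (f2 j) (f4 l) none (some j) none (some l)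
    (by rw [p24_2, p24_4, s10])
  obtain ⟨x34, r34⟩ := huv (f3 k) (f4 l) none none (some k) (some l)
    (by rw [p34_3, p34_4, s10])
  change (c (a12 i j)).1.1 _ _ _ _ = 1 at x12
  change (c (a13 i k)).1.1 _ _ _ _ = 1 at x13
  change (c (a14 i l)).1.1 _ _ _ _ = 1 at x14
  change (c (a23 j k)).1.1 _ _ _ _ = 1 at x23
  change (c (a24 j l)).1.1 _ _ _ _ = 1 at x24
  change (c (a34 k l)).1.1 _ _ _ _ = 1 at x34
  change a12 i j * f1 i = f2 j * g12 i j at r12
  change a13 i k * f1 i = f3 k * g13 i k at r13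
  change a14 i l * f1 i = f4 l * g14 i l at r14
  change a23 j k * f2 j = f3 k * g23 j k at r23
  change a24 j l * f2 j = f4 l * g24 j l at r24
  change a34 k l * f3 k = f4 l * g34 k l at r34
  have xmul : ∀ (y y' : R) (a b e d : Option Ind), (c (y * y')).1.1 a b e d =
      (c y).1.1 a b e d * (c y').1.1 a b e d := fun y y' a b e d =>
    congrArg (fun s : Sec Ind => s.1.1 a b e d) (hc.mul y y')
  have zmul : ∀ (y y' : R) (a b e : Ind), (c (y * y')).1.2.1 a b e =
      (c y).1.2.1 a b e * (c y').1.2.1 a b e := fun y y' a b e =>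
    congrArg (fun s : Sec Ind => s.1.2.1 a b e) (hc.mul y y')
  have pmul : ∀ (y y' : R) (a b e d : Ind), (c (y * y')).1.2.2 a b e d =
      (c y).1.2.2 a b e d * (c y').1.2.2 a b e d := fun y y' a b e d =>
    congrArg (fun s : Sec Ind => s.1.2.2 a b e d) (hc.mul y y')
  have q12 : (c (g12 i j)).1.1 (some i) (some j) none none = m 0 0 := by
    have h := congrArg (fun y => (c y).1.1 (some i) (some j) none none) r12
    simp only [xmul, x12, p12_1, p12_2, one_mul] at h
    exact solve h
  have q14 : (c (g14 i l)).1.1 (some i) none none (some l) = m 0 1 := by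
    have h := congrArg (fun y => (c y).1.1 (some i) none none (some l)) r14
    simp only [xmul, x14, p14_1, p14_4, one_mul] at h
    exact solve h
  have q24 : (c (g24 j l)).1.1 none (some j) none (some l) = m 0 1 := by
    have h := congrArg (fun y => (c y).1.1 none (some j) none (some l)) r24
    simp only [xmul, x24, p24_2, p24_4, one_mul] at h
    exact solve h
  -- relations of level three
  have k123 : f3 k * w123 i j k = 0 := by
    show f3 k * (a13 i k * g12 i j * g23 j k - a12 i j * a23 j k * g13 i k) = 0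
    linear_combination (-(a13 i k * g12 i j)) * r23 + (a12 i j * a23 j k) * r13 -
      (a13 i k * a23 j k) * r12
  have k124 : f4 l * w124 i j l = 0 := by
    show f4 l * (a14 i l * g12 i j * g24 j l - a12 i j * a24 j l * g14 i l) = 0
    linear_combination (-(a14 i l * g12 i j)) * r24 + (a12 i j * a24 j l) * r14 -
      (a14 i l * a24 j l) * r12
  have k134 : f4 l * w134 i k l = 0 := by
    show f4 l * (a14 i l * g13 i k * g34 k l - a13 i k * a34 k l * g14 i l) = 0
    linear_combination (-(a14 i l * g13 i k)) * r34 + (a13 i k * a34 k l) * r14 -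
      (a14 i l * a34 k l) * r13
  have k234 : f4 l * w234 j k l = 0 := by
    show f4 l * (a24 j l * g23 j k * g34 k l - a23 j k * a34 k l * g24 j l) = 0
    linear_combination (-(a24 j l * g23 j k)) * r34 + (a23 j k * a34 k l) * r24 -
      (a24 j l * a34 k l) * r23
  have w123x : (c (w123 i j k)).1.1 (some i) (some j) (some k) none = 0 := by
    have h := congrArg (fun y => (c y).1.1 (some i) (some j) (some k) none) k123
    simp only [xmul, t123, hc.zero] at h
    exact zero_of_mul h
  have w134x : (c (w134 i k l)).1.1 (some i) none (some k) (some l) = 0 := by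
    have h := congrArg (fun y => (c y).1.1 (some i) none (some k) (some l)) k134
    simp only [xmul, t134, hc.zero] at h
    exact zero_of_mul h
  have w234x : (c (w234 j k l)).1.1 none (some j) (some k) (some l) = 0 := by
    have h := congrArg (fun y => (c y).1.1 none (some j) (some k) (some l)) k234
    simp only [xmul, t234, hc.zero] at h
    exact zero_of_mul h
  -- membership facts
  have nmem : ∀ (y : R) (K : Finset Ind) (t : Ind), t ∉ sup y → t ∉ K → t ∉ sup y ∪ K :=
    fun y K t h1 h2 => by simp [h1, h2]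
  have ymem : ∀ (y : R) (K : Finset Ind) (t : Ind), t ∈ K → t ∈ sup y ∪ K :=
    fun y K t h => Finset.mem_union_right _ h
  -- values at the special point
  have zg12 : (c (g12 i j)).1.2.1 i j l = 1 := by
    have hl' := nmem (g12 i j) {i, j} l lg12 (by simp [hli, hlj])
    rw [(hsupK (g12 i j) {i, j}).z i j l (fun h => hl' h.2.2), if_neg (fun h => hl' h.2),
      x_eval (hsupK (g12 i j) {i, j}) rfl rfl rfl (off _ _ _ lg12 (by simp [hli, hlj])), q12, pp_m0]
  have za12 : (c (a12 i j)).1.2.1 i j l = 1 := by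
    have hl' := nmem (a12 i j) {i, j} l la12 (by simp [hli, hlj])
    rw [(hsupK (a12 i j) {i, j}).z i j l (fun h => hl' h.2.2), if_neg (fun h => hl' h.2),
      x_eval (hsupK (a12 i j) {i, j}) rfl rfl rfl (off _ _ _ la12 (by simp [hli, hlj])), x12, pp_one]
  have zg24 : (c (g24 j l)).1.2.1 i j l = 1 := by
    have hi' := nmem (g24 j l) {j, l} i ig24 (by simp [hij, hil])
    rw [(hsupK (g24 j l) {j, l}).z i j l (fun h => hi' h.1), if_neg (fun h => hi' h.1),
      x_eval (hsupK (g24 j l) {j, l}) (off _ _ _ ig24 (by simp [hij, hil])) rfl rfl rfl, q24, pp_m0]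
  have za24 : (c (a24 j l)).1.2.1 i j l = 1 := by
    have hi' := nmem (a24 j l) {j, l} i ia24 (by simp [hij, hil])
    rw [(hsupK (a24 j l) {j, l}).z i j l (fun h => hi' h.1), if_neg (fun h => hi' h.1),
      x_eval (hsupK (a24 j l) {j, l}) (off _ _ _ ia24 (by simp [hij, hil])) rfl rfl rfl, x24, pp_one]
  have zg14 : (c (g14 i l)).1.2.1 i j l = m 0 1 := by
    have hj' := nmem (g14 i l) {i, l} j jg14 (by simp [hji, hjl])
    rw [(hsupK (g14 i l) {i, l}).z i j l (fun h => hj' h.2.1),
      if_pos ⟨ymem _ _ _ (by simp), ymem _ _ _ (by simp)⟩,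
      x_eval (hsupK (g14 i l) {i, l}) rfl (off _ _ _ jg14 (by simp [hji, hjl])) rfl rfl, q14, th_m0]
  have za14 : (c (a14 i l)).1.2.1 i j l = 1 := by
    have hj' := nmem (a14 i l) {i, l} j ja14 (by simp [hji, hjl])
    rw [(hsupK (a14 i l) {i, l}).z i j l (fun h => hj' h.2.1),
      if_pos ⟨ymem _ _ _ (by simp), ymem _ _ _ (by simp)⟩,
      x_eval (hsupK (a14 i l) {i, l}) rfl (off _ _ _ ja14 (by simp [hji, hjl])) rfl rfl, x14, th_one]
  have zw : (c (w124 i j l)).1.2.1 i j l = 1 := by
    have hsum : a14 i l * g12 i j * g24 j l = w124 i j l + a12 i j * a24 j l * g14 i l := by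
      show _ = (a14 i l * g12 i j * g24 j l - a12 i j * a24 j l * g14 i l) +
        a12 i j * a24 j l * g14 i l
      ring
    have h1 := hc.add (w124 i j l) (a12 i j * a24 j l * g14 i l)
    rw [← hsum] at h1
    have h2 := congrArg (fun s : Sec Ind => s.1.2.1 i j l) h1
    change (c (a14 i l * g12 i j * g24 j l)).1.2.1 i j l +
      ((c (w124 i j l)).1.2.1 i j l + (c (a12 i j * a24 j l * g14 i l)).1.2.1 i j l) =
      (c (w124 i j l)).1.2.1 i j l + (c (a12 i j * a24 j l * g14 i l)).1.2.1 i j l at h2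
    simp only [zmul, zg12, za12, zg24, za24, zg14, za14, one_mul, mul_one] at h2
    have hmem := (c (w124 i j l)).2.1.z i j l
    generalize (c (w124 i j l)).1.2.1 i j l = t at h2 hmem
    rcases hmem with rfl | ⟨b, rfl, hb⟩
    · rw [zero_add, one_def, m_add_iff] at h2
      omega
    · by_cases hb1 : b = 0
      · subst hb1; rfl
      · exfalso
        rcases add_cases (m 0 b) (m 0 1) with h | h
        · rw [h, one_def, m_add_iff] at h2
          omega
        · rw [h, one_def, m_add_iff] at h2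
          omega
  -- values at the quadruple point
  have pw124 : (c (w124 i j l)).1.2.2 i j k l = 1 := by
    have hk' := nmem (w124 i j l) {i, j, l} k kw (by simp [hki, hkj, hkl])
    rw [(hsupK (w124 i j l) {i, j, l}).p i j k l (fun h => hk' h.2.2.1),
      if_pos ⟨ymem _ _ _ (by simp), ymem _ _ _ (by simp), ymem _ _ _ (by simp)⟩, zw, pp_one]
  have pw123 : (c (w123 i j k)).1.2.2 i j k l = 0 := by
    have hl' := nmem (w123 i j k) {i, j, k} l lw (by simp [hli, hlj, hlk])
    rw [(hsupK (w123 i j k) {i, j, k}).p i j k l (fun h => hl' h.2.2.2),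
      if_neg (fun h => hl' h.2.2),
      x_eval (hsupK (w123 i j k) {i, j, k}) rfl rfl rfl (off _ _ _ lw (by simp [hli, hlj, hlk])),
      w123x, pp_zero]
  have pw134 : (c (w134 i k l)).1.2.2 i j k l = 0 := by
    have hj' := nmem (w134 i k l) {i, k, l} j jw (by simp [hji, hjk, hjl])
    rw [(hsupK (w134 i k l) {i, k, l}).p i j k l (fun h => hj' h.2.1),
      if_neg (fun h => hj' h.2.1),
      x_eval (hsupK (w134 i k l) {i, k, l}) rfl (off _ _ _ jw (by simp [hji, hjk, hjl])) rfl rfl,
      w134x, pp_zero]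
  have pw234 : (c (w234 j k l)).1.2.2 i j k l = 0 := by
    have hi' := nmem (w234 j k l) {j, k, l} i iw (by simp [hij, hik, hil])
    rw [(hsupK (w234 j k l) {j, k, l}).p i j k l (fun h => hi' h.1),
      if_neg (fun h => hi' h.1),
      x_eval (hsupK (w234 j k l) {j, k, l}) (off _ _ _ iw (by simp [hij, hik, hil])) rfl rfl rfl,
      w234x, pp_zero]
  have pa13 : (c (a13 i k)).1.2.2 i j k l = 1 := by
    have hj' := nmem (a13 i k) {i, k} j ja13 (by simp [hji, hjk])
    rw [(hsupK (a13 i k) {i, k}).p i j k l (fun h => hj' h.2.1),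
      if_neg (fun h => hj' h.2.1),
      x_eval (hsupK (a13 i k) {i, k}) rfl (off _ _ _ ja13 (by simp [hji, hjk])) rfl
        (off _ _ _ la13 (by simp [hli, hlk])), x13, pp_one]
  have pa23 : (c (a23 j k)).1.2.2 i j k l = 1 := by
    have hi' := nmem (a23 j k) {j, k} i ia23 (by simp [hij, hik])
    rw [(hsupK (a23 j k) {j, k}).p i j k l (fun h => hi' h.1),
      if_neg (fun h => hi' h.1),
      x_eval (hsupK (a23 j k) {j, k}) (off _ _ _ ia23 (by simp [hij, hik])) rfl rfl
        (off _ _ _ la23 (by simp [hlj, hlk])), x23, pp_one]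
  have pa34 : (c (a34 k l)).1.2.2 i j k l = 1 := by
    have hi' := nmem (a34 k l) {k, l} i ia34 (by simp [hik, hil])
    rw [(hsupK (a34 k l) {k, l}).p i j k l (fun h => hi' h.1),
      if_neg (fun h => hi' h.1),
      x_eval (hsupK (a34 k l) {k, l}) (off _ _ _ ia34 (by simp [hik, hil]))
        (off _ _ _ ja34 (by simp [hjk, hjl])) rfl rfl, x34, pp_one]
  -- the identity
  set A : R := w123 i j k * g34 k l * a14 i l * a24 j l with hA
  set B : R := w134 i k l * a12 i j * a23 j k * a24 j l with hB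
  set C : R := w234 j k l * g12 i j * a14 i l * a13 i k with hC
  have hid : w124 i j l * a23 j k * a34 k l * a13 i k = (A + B) - C := by
    show (a14 i l * g12 i j * g24 j l - a12 i j * a24 j l * g14 i l) * a23 j k * a34 k l * a13 i k =
      ((a13 i k * g12 i j * g23 j k - a12 i j * a23 j k * g13 i k) * g34 k l * a14 i l * a24 j l +
      (a14 i l * g13 i k * g34 k l - a13 i k * a34 k l * g14 i l) * a12 i j * a23 j k * a24 j l) -
      (a24 j l * g23 j k * g34 k l - a23 j k * a34 k l * g24 j l) * g12 i j * a14 i l * a13 i k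
    ring
  have pA : (c A).1.2.2 i j k l = 0 := by
    rw [hA, pmul, pmul, pmul, pw123, zero_mul, zero_mul, zero_mul]
  have pB : (c B).1.2.2 i j k l = 0 := by
    rw [hB, pmul, pmul, pmul, pw134, zero_mul, zero_mul, zero_mul]
  have pC : (c C).1.2.2 i j k l = 0 := by
    rw [hC, pmul, pmul, pmul, pw234, zero_mul, zero_mul, zero_mul]
  have pAB : (c (A + B)).1.2.2 i j k l = 0 := by
    have h := congrArg (fun s : Sec Ind => s.1.2.2 i j k l) (hc.add A B)
    change (c (A + B)).1.2.2 i j k l + ((c A).1.2.2 i j k l + (c B).1.2.2 i j k l) =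
      (c A).1.2.2 i j k l + (c B).1.2.2 i j k l at h
    rw [pA, pB, add_zero, add_zero] at h
    exact h
  have pABC : (c (A + B - C)).1.2.2 i j k l = 0 := by
    have h := congrArg (fun s : Sec Ind => s.1.2.2 i j k l) (c_sub hc (A + B) C)
    change (c (A + B - C)).1.2.2 i j k l + ((c (A + B)).1.2.2 i j k l + (c C).1.2.2 i j k l) =
      (c (A + B)).1.2.2 i j k l + (c C).1.2.2 i j k l at h
    rw [pAB, pC, add_zero, add_zero] at h
    exact h
  rw [← hid, pmul, pmul, pmul, pw124, pa13, pa23, pa34] at pABC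
  simp only [mul_one] at pABC
  exact m_ne_zero 0 0 pABC

end Final

theorem not_representable {I : Type u} (hI : Cardinal.aleph 3 ≤ Cardinal.mk I) :
    ¬ Representable.{u, v} (Ideal (Sec I)) := by
  rintro ⟨R, _, e, he⟩
  obtain ⟨c, hc⟩ := exists_content good_Sec e he
  exact no_content hI hc

end

end Pool.Agent.KS6_38.BZ
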