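import Pool.Agent.KS6_38.BZ.Sec

/-!
The semiring of sections satisfies the three axioms.
-/

namespace Pool.Agent.KS6_38.BZ

open Pool.Agent.Helper455.Bez

universe u

open Classical

noncomputable section

variable {I : Type u}

lemma common (s t : Sec I) : ∃ F : Finset I, Supp F s.1 ∧ Supp F t.1 := by
  obtain ⟨hs, F, hF⟩ := s.2
  obtain ⟨ht, G, hG⟩ := t.2
  exact ⟨F ∪ G, hF.mono Finset.subset_union_left hs, hG.mono Finset.subset_union_right ht⟩

lemma le_x {s t : Sec I} (h : s + t = t) (a b c d : Option I) :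
    s.1.1 a b c d + t.1.1 a b c d = t.1.1 a b c d := by
  have := congrArg (fun u : Sec I => u.1.1 a b c d) h
  exact this

lemma le_z {s t : Sec I} (h : s + t = t) (i j l : I) :
    s.1.2.1 i j l + t.1.2.1 i j l = t.1.2.1 i j l := by
  have := congrArg (fun u : Sec I => u.1.2.1 i j l) h
  exact this

lemma le_p {s t : Sec I} (h : s + t = t) (i j k l : I) :
    s.1.2.2 i j k l + t.1.2.2 i j k l = t.1.2.2 i j k l := by
  have := congrArg (fun u : Sec I => u.1.2.2 i j k l) h
  exact this

theorem good_Sec : Good (Sec I) where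
  top := by
    intro c
    obtain ⟨hc, -⟩ := c.2
    apply Subtype.ext
    refine Prod.ext ?_ (Prod.ext ?_ ?_)
    · funext a b c' d; exact add_one_of_mem (X_le _ _ _ _ (hc.x _ _ _ _))
    · funext i j l; exact add_one_of_mem (Zs_le (hc.z _ _ _))
    · funext i j k l; exact add_one_of_mem (A0_le (hc.p _ _ _ _))
  dvd := by
    intro s t h
    obtain ⟨F, hF, hG⟩ := common s t
    have vs := s.2.1
    have vt := t.2.1
    set e : Amb I := ext F (fun a b c d => quo (s.1.1 a b c d) (t.1.1 a b c d))
      (fun i j l => quo (s.1.2.1 i j l) (t.1.2.1 i j l))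
      (fun i j k l => quo (s.1.2.2 i j k l) (t.1.2.2 i j k l)) with he
    have hx : ∀ a b c d, quo (s.1.1 a b c d) (t.1.1 a b c d) ∈ X a b c d ∧
        s.1.1 a b c d = t.1.1 a b c d * quo (s.1.1 a b c d) (t.1.1 a b c d) := fun a b c d =>
      closed_X a b c d _ (vs.x _ _ _ _) _ (vt.x _ _ _ _) (le_x h _ _ _ _)
    have hz : ∀ i j l, quo (s.1.2.1 i j l) (t.1.2.1 i j l) ∈ Zs ∧
        s.1.2.1 i j l = t.1.2.1 i j l * quo (s.1.2.1 i j l) (t.1.2.1 i j l) := fun i j l =>
      closed_Zs _ (vs.z _ _ _) _ (vt.z _ _ _) (le_z h _ _ _)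
    have hp : ∀ i j k l, quo (s.1.2.2 i j k l) (t.1.2.2 i j k l) ∈ A0 ∧
        s.1.2.2 i j k l = t.1.2.2 i j k l * quo (s.1.2.2 i j k l) (t.1.2.2 i j k l) :=
      fun i j k l => closed_A0 _ (vs.p _ _ _ _) _ (vt.p _ _ _ _) (le_p h _ _ _ _)
    have ve : Val e := ext_val (fun a b c d => (hx a b c d).1) (fun i j l => (hz i j l).1)
      (fun i j k l => (hp i j k l).1)
    have se : Supp F e := ext_supp (fun a b c d => by
      rw [hF.x a b c d, hG.x a b c d])
    have me : e ∈ Sec I := ⟨ve, F, se⟩
    refine ⟨⟨e, me⟩, ?_⟩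
    apply Subtype.ext
    -- the product is supported by `F`
    have hprod : Supp F (t.1 * e) := by
      have h2 : ∀ a b c d, (t.1 * e).1 a b c d = (t.1 * e).1 (rs F a) (rs F b) (rs F c) (rs F d) := by
        intro a b c d
        show t.1.1 a b c d * e.1 a b c d = t.1.1 _ _ _ _ * e.1 _ _ _ _
        rw [hG.x a b c d, se.x a b c d]
      refine ⟨h2, ?_, ?_⟩
      · intro i j l hn
        show t.1.2.1 i j l * e.2.1 i j l = if _ then th (t.1.1 _ _ _ _ * e.1 _ _ _ _)
          else pp (t.1.1 _ _ _ _ * e.1 _ _ _ _)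
        rw [hG.z i j l hn, se.z i j l hn,
          th_mul (X_le _ _ _ _ (vt.x _ _ _ _)) (X_le _ _ _ _ (ve.x _ _ _ _)),
          pp_mul (X_le _ _ _ _ (vt.x _ _ _ _)) (X_le _ _ _ _ (ve.x _ _ _ _))]
        split_ifs <;> rfl
      · intro i j k l hn
        show t.1.2.2 i j k l * e.2.2 i j k l = if _ then pp (t.1.2.1 _ _ _ * e.2.1 _ _ _)
          else pp (t.1.1 _ _ _ _ * e.1 _ _ _ _)
        rw [hG.p i j k l hn, se.p i j k l hn,
          pp_mul (Zs_le (vt.z _ _ _)) (Zs_le (ve.z _ _ _)),
          pp_mul (X_le _ _ _ _ (vt.x _ _ _ _)) (X_le _ _ _ _ (ve.x _ _ _ _))]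
        split_ifs <;> rfl
    refine eq_of_supp hF hprod ?_ ?_ ?_
    · intro a b c d; exact (hx a b c d).2
    · intro i j l hn
      show _ = t.1.2.1 i j l * (if _ then _ else _)
      rw [if_pos hn]
      exact (hz i j l).2
    · intro i j k l hn
      show _ = t.1.2.2 i j k l * (if _ then _ else _)
      rw [if_pos hn]
      exact (hp i j k l).2
  wc := by
    intro a b c h
    obtain ⟨F, hF, hG⟩ := common a b
    obtain ⟨G, hG1, hG2⟩ := common c c
    have va := a.2.1
    have vb := b.2.1
    have vc := c.2.1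
    set K := F ∪ G with hK
    have ha := hF.mono (Finset.subset_union_left (s₂ := G)) va
    have hb := hG.mono (Finset.subset_union_left (s₂ := G)) vb
    have hc := hG1.mono (Finset.subset_union_right (s₁ := F)) vc
    rw [← hK] at ha hb hc
    set e : Amb I := ext K (fun a b c' d => if c.1.1 a b c' d = 0 then 1 else 0)
      (fun i j l => if c.1.2.1 i j l = 0 then 1 else 0)
      (fun i j k l => if c.1.2.2 i j k l = 0 then 1 else 0) with he
    have m01 : ∀ (A : Subsemiring V) (P : Prop) [Decidable P],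
        (if P then (1 : V) else 0) ∈ A := by
      intro A P _
      split_ifs
      · exact A.one_mem
      · exact A.zero_mem
    have ve : Val e := ext_val (fun a b c d => m01 _ _) (fun i j l => m01 _ _)
      (fun i j k l => m01 _ _)
    have se : Supp K e := ext_supp (fun a b c' d => by
      show (if c.1.1 a b c' d = 0 then (1 : V) else 0) = if c.1.1 _ _ _ _ = 0 then (1 : V) else 0
      rw [← hc.x a b c' d])
    have me : e ∈ Sec I := ⟨ve, K, se⟩
    refine ⟨⟨e, me⟩, ?_, ?_⟩
    · apply Subtype.ext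
      have hm : (⟨e, me⟩ * c : Sec I) ∈ (Set.univ : Set (Sec I)) := trivial
      obtain ⟨hv1, -⟩ := (⟨e, me⟩ * c : Sec I).2
      -- check on free coordinates; products and zero are supported by `K`
      have hprod : Supp K (e * c.1) := by
        have h2 : ∀ a b c' d, (e * c.1).1 a b c' d =
            (e * c.1).1 (rs K a) (rs K b) (rs K c') (rs K d) := by
          intro a b c' d
          show e.1 a b c' d * c.1.1 a b c' d = e.1 _ _ _ _ * c.1.1 _ _ _ _
          rw [hc.x a b c' d, se.x a b c' d]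
        refine ⟨h2, ?_, ?_⟩
        · intro i j l hn
          show e.2.1 i j l * c.1.2.1 i j l = if _ then th (e.1 _ _ _ _ * c.1.1 _ _ _ _)
            else pp (e.1 _ _ _ _ * c.1.1 _ _ _ _)
          rw [hc.z i j l hn, se.z i j l hn,
            th_mul (X_le _ _ _ _ (ve.x _ _ _ _)) (X_le _ _ _ _ (vc.x _ _ _ _)),
            pp_mul (X_le _ _ _ _ (ve.x _ _ _ _)) (X_le _ _ _ _ (vc.x _ _ _ _))]
          split_ifs <;> rfl
        · intro i j k l hn
          show e.2.2 i j k l * c.1.2.2 i j k l = if _ then pp (e.2.1 _ _ _ * c.1.2.1 _ _ _)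
            else pp (e.1 _ _ _ _ * c.1.1 _ _ _ _)
          rw [hc.p i j k l hn, se.p i j k l hn,
            pp_mul (Zs_le (ve.z _ _ _)) (Zs_le (vc.z _ _ _)),
            pp_mul (X_le _ _ _ _ (ve.x _ _ _ _)) (X_le _ _ _ _ (vc.x _ _ _ _))]
          split_ifs <;> rfl
      have hzero : Supp K (0 : Amb I) := by
        refine ⟨fun a b c d => rfl, ?_, ?_⟩
        · intro i j l hn
          show (0 : V) = if _ then th (0 : V) else pp (0 : V)
          simp
        · intro i j k l hn
          show (0 : V) = if _ then pp (0 : V) else pp (0 : V)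
          simp
      have key : ∀ v : V, (if v = 0 then (1 : V) else 0) * v = 0 := by
        intro v
        split_ifs with hv
        · rw [hv, mul_zero]
        · rw [zero_mul]
      refine eq_of_supp hprod hzero ?_ ?_ ?_
      · intro a b c' d; exact key _
      · intro i j l hn
        show (if _ then _ else _) * c.1.2.1 i j l = 0
        rw [if_pos hn]; exact key _
      · intro i j k l hn
        show (if _ then _ else _) * c.1.2.2 i j k l = 0
        rw [if_pos hn]; exact key _
    · apply Subtype.ext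
      show a.1 + (b.1 + e) = b.1 + e
      have key : ∀ {v w u : V}, v ∈ Vp → w ∈ Vp → v * u + w * u = w * u →
          v + (w + (if u = 0 then (1 : V) else 0)) = w + (if u = 0 then (1 : V) else 0) := by
        intro v w u hv hw hu
        split_ifs with hu0
        · rw [add_one_of_mem hw, add_one_of_mem hv]
        · rw [add_zero]; exact cancel hu0 hu
      have vbe : Val (b.1 + e) := (b + ⟨e, me⟩ : Sec I).2.1
      have sbe : Supp K (b.1 + e) := by
        refine ⟨?_, ?_, ?_⟩
        · intro a b' c' d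
          show b.1.1 a b' c' d + e.1 a b' c' d = b.1.1 _ _ _ _ + e.1 _ _ _ _
          rw [hb.x a b' c' d, se.x a b' c' d]
        · intro i j l hn
          show b.1.2.1 i j l + e.2.1 i j l = if _ then th (b.1.1 _ _ _ _ + e.1 _ _ _ _)
            else pp (b.1.1 _ _ _ _ + e.1 _ _ _ _)
          rw [hb.z i j l hn, se.z i j l hn,
            th_add (X_le _ _ _ _ (vb.x _ _ _ _)) (X_le _ _ _ _ (ve.x _ _ _ _)),
            pp_add (X_le _ _ _ _ (vb.x _ _ _ _)) (X_le _ _ _ _ (ve.x _ _ _ _))]
          split_ifs <;> rfl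
        · intro i j k l hn
          show b.1.2.2 i j k l + e.2.2 i j k l = if _ then pp (b.1.2.1 _ _ _ + e.2.1 _ _ _)
            else pp (b.1.1 _ _ _ _ + e.1 _ _ _ _)
          rw [hb.p i j k l hn, se.p i j k l hn,
            pp_add (Zs_le (vb.z _ _ _)) (Zs_le (ve.z _ _ _)),
            pp_add (X_le _ _ _ _ (vb.x _ _ _ _)) (X_le _ _ _ _ (ve.x _ _ _ _))]
          split_ifs <;> rfl
      refine le_of_supp va vbe ha sbe ?_ ?_ ?_
      · intro a' b' c' d
        exact key (X_le _ _ _ _ (va.x _ _ _ _)) (X_le _ _ _ _ (vb.x _ _ _ _))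
          (congrArg (fun u : Sec I => u.1.1 a' b' c' d) h)
      · intro i j l hn
        show a.1.2.1 i j l + (b.1.2.1 i j l + if _ then _ else _) =
          b.1.2.1 i j l + if _ then _ else _
        rw [if_pos hn]
        exact key (Zs_le (va.z _ _ _)) (Zs_le (vb.z _ _ _))
          (congrArg (fun u : Sec I => u.1.2.1 i j l) h)
      · intro i j k l hn
        show a.1.2.2 i j k l + (b.1.2.2 i j k l + if _ then _ else _) =
          b.1.2.2 i j k l + if _ then _ else _
        rw [if_pos hn]
        exact key (A0_le (va.p _ _ _ _)) (A0_le (vb.p _ _ _ _))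
          (congrArg (fun u : Sec I => u.1.2.2 i j k l) h)

end

end Pool.Agent.KS6_38.BZ
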